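import Pool.Agent.Helper95.ME.Final

/-!
MP_7d33ba_ag, Q1: every maximally intersecting pair of integral ACM curves in projective
three-space whose h-vectors satisfy the explicit numerical conditions `Covered` lies on an
integral surface of degree `m₀`. No hypothesis on the curves is made: the maximal length is
bounded from below by constructing pairs of integral ACM curves with arbitrary h-vectors of
decreasing type.
-/

set_option autoImplicit false

namespace Pool.Agent.Results.MP_7d33ba_ag.ArbitraryPairs

open Pool.Agent.Helper95.MI Pool.Agent.Helper95.ME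

theorem result {k : Type*} [Field k] [IsAlgClosed k] {I₁ I₂ : Ideal (MvPolynomial (Fin 4) k)}
    {h₁ h₂ : ℕ → ℕ} {l : ℕ} (hd₁ : DecType h₁) (hd₂ : DecType h₂) (hM : MaxPair I₁ I₂ h₁ h₂ l)
    (hc : Covered h₁ h₂ ∨ Covered h₂ h₁) : OnSurface I₁ I₂ (m0 h₁ h₂) := by
  have : Infinite k := IsAlgClosed.instInfinite
  rcases hc with hc | hc
  · exact main hd₁ hd₂ hM hc
  · rw [m0_symm]
    exact (main hd₂ hd₁ hM.symm hc).symm

end Pool.Agent.Results.MP_7d33ba_ag.ArbitraryPairs
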