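import Pool.Agent.Helper95.MI.Bez

/-!
MP_7d33ba_ag, Q1: maximally intersecting pairs of integral ACM curves in projective three-space.

`IsCurve I h`: `I` is the homogeneous ideal of an integral ACM curve with h-vector `h`.
If the intersection of two such curves has length greater than the explicit number `B - ρ`, then
both curves lie on an integral surface of degree `m₀`. For two complete intersections the known
maximal length is greater than `B - ρ`.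
-/

set_option autoImplicit false

namespace Pool.Agent.Results.MP_7d33ba_ag.MaximalPairs

open Pool.Agent.Helper95.MI

theorem result {k : Type*} [Field k] [IsAlgClosed k] {I₁ I₂ : Ideal (MvPolynomial (Fin 4) k)}
    {h₁ h₂ : ℕ → ℕ} {l : ℕ} (hC₁ : IsCurve I₁ h₁) (hC₂ : IsCurve I₂ h₂)
    (hd₁ : DecType h₁) (hd₂ : DecType h₂) (hl : InterLength I₁ I₂ l) :
    (0 ≤ rho h₁ h₂ ∧ ((BB h₁ h₂ : ℤ) - rho h₁ h₂ < l → OnSurface I₁ I₂ (m0 h₁ h₂))) ∧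
    (max (sI h₁) (sI h₂) < m0 h₁ h₂ → l ≤ BB h₁ h₂ ∧ 1 ≤ rho h₁ h₂) ∧
    (sI h₂ * deg h₁ < l ∨ (tI h₂ ≤ m0 h₁ h₂ ∧ sI h₂ * deg h₁ ≤ l) →
      OnSurface I₁ I₂ (m0 h₁ h₂)) ∧
    (∀ s₁ t₁ s₂ t₂ : ℕ, 1 ≤ s₁ → s₁ ≤ t₁ → s₁ ≤ s₂ → s₂ ≤ t₂ →
      h₁ = ciH s₁ t₁ → h₂ = ciH s₂ t₂ → ciN s₁ t₁ s₂ t₂ ≤ l → OnSurface I₁ I₂ (m0 h₁ h₂)) := by
  have : Infinite k := IsAlgClosed.instInfinite
  refine ⟨⟨rho_nonneg hC₁ hC₂ hd₁ hd₂, onSurface_of_lt hC₁ hC₂ hl⟩, ?_, ?_, ?_⟩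
  · intro hm
    refine ⟨le_BB hC₁ hC₂ hl (by omega) (by omega), ?_⟩
    have h := m0_mem (h₁ := h₁) (h₂ := h₂)
    exact rho_pos hC₁ hC₂ hd₁ hd₂ (h.1.resolve_left (by omega)) (h.2.resolve_left (by omega))
  · rintro (h | ⟨h, h'⟩)
    · exact onSurface_of_lt_mul hC₁ hC₂ hd₁ hd₂ hl h
    · exact onSurface_of_le_mul hC₁ hC₂ hd₁ hd₂ hl h h'
  · rintro s₁ t₁ s₂ t₂ hs₁ hst₁ hs hst₂ rfl rfl hN
    exact ci_surface hs₁ hst₁ hst₂ hs hC₁ hC₂ hd₁ hd₂ hl hN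

end Pool.Agent.Results.MP_7d33ba_ag.MaximalPairs
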